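import Pool.Agent.helper77.Reg.Defs

/-!
# Regulator theories with pull-backs and push-forwards

Definitions for the theorem on decompositions of the diagonal.
-/

open AlgebraicGeometry CategoryTheory CategoryTheory.Limits Helper77Reg

namespace Helper69ZC

/-! ### Cycles -/

/-- The fibre product of `X` with itself over the integers. -/
noncomputable abbrev square (X : Scheme.{0}) : Scheme.{0} :=
  pullback (toZ X) (toZ X)

/-- The morphism from `Y` to the square of `X` given by two morphisms from `Y` to `X`. -/
noncomputable def toSquare {Y X : Scheme.{0}} (f g : Y ⟶ X) : Y ⟶ square X :=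
  pullback.lift f g (specZIsTerminal.hom_ext _ _)

/-- The cycle `c` (a point stands for its closure) on the scheme `P` is the divisor of a non-zero
rational function on an integral closed subscheme of `P`. -/
def IsDivisor {P : Scheme.{0}} (c : P →₀ ℤ) : Prop :=
  ∃ (W : Scheme.{0}) (_ : IsIntegral W) (_ : IsLocallyNoetherian W) (i : W ⟶ P)
    (_ : IsClosedImmersion i) (φ : W.functionField),
    φ ≠ 0 ∧ (∀ z : W, c (i z) = Scheme.ord φ z) ∧ ∀ y ∉ Set.range i, c y = 0

/-- The cycle `c` is rationally equivalent to zero. -/
def IsRatTrivial {P : Scheme.{0}} (c : P →₀ ℤ) : Prop :=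
  c ∈ AddSubgroup.closure {b : P →₀ ℤ | IsDivisor b}

/-- An arithmetic scheme `Y` of dimension `d` with its generic point and two morphisms to `X`. -/
structure Span (X : Scheme.{0}) (d : ℕ) where
  /-- the scheme -/
  Y : Scheme.{0}
  arithmetic : IsArithmetic Y d
  /-- the generic point -/
  η : Y
  generic : IsGenericPoint η Set.univ
  /-- the first morphism -/
  f : Y ⟶ X
  /-- the second morphism -/
  g : Y ⟶ X

/-- The direct image in the square of `X` of the fundamental cycle. -/
noncomputable def Span.cycle {X : Scheme.{0}} {d : ℕ} (s : Span X d) : square X →₀ ℤ :=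
  Finsupp.single (toSquare s.f s.g s.η) ((toSquare s.f s.g).residueDegree s.η : ℤ)

/-- The diagonal of `X`, whose generic point is `ξ`, decomposes through `σ : S ⟶ X`: a non-zero
multiple of it is rationally equivalent to a cycle all of whose components have dimension `d` and
satisfy one of the two conditions: the closure of the first projection has dimension smaller than
`d`, or the second projection lies in the image of `σ`. -/
def DecomposesThrough {S X : Scheme.{0}} (σ : S ⟶ X) (d : ℕ) (ξ : X) : Prop :=
  ∃ (N : ℤ) (c : square X →₀ ℤ), N ≠ 0 ∧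
    IsRatTrivial (Finsupp.single (toSquare (𝟙 X) (𝟙 X) ξ) N - c) ∧
    ∀ z ∈ c.support, topologicalKrullDim (closure {z} : Set (square X)) = d ∧
      (topologicalKrullDim (closure {pullback.fst (toZ X) (toZ X) z} : Set X) < d ∨
        pullback.snd (toZ X) (toZ X) z ∈ Set.range σ)

/-- Existence of regular alterations (a theorem of de Jong), in the following form: if `g : W ⟶ P` is
a morphism of schemes proper over the integers, and the closure of `g w` has dimension `n`, there is
a connected regular scheme of dimension `n`, proper over the integers, which maps to `W` so that its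
generic point is mapped to `g w` with a finite extension of residue fields. -/
def Alterations : Prop :=
  ∀ {W P : Scheme.{0}} (g : W ⟶ P), IsProper (toZ W) → IsProper (toZ P) → ∀ (w : W) (n : ℕ),
    topologicalKrullDim (closure {g w} : Set P) = n →
    ∃ (Y : Scheme.{0}) (h : Y ⟶ W) (η : Y), IsArithmetic Y n ∧ IsGenericPoint η Set.univ ∧
      (h ≫ g) η = g w ∧ (h ≫ g).residueDegree η ≠ 0

/-! ### Regulators -/

/-- A morphism from the linear map `F` to the linear map `G`. -/
structure Mor (F G : LinMap) where
  /-- the map on the sources -/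
  a : F.A →ₗ[ℝ] G.A
  /-- the map on the targets -/
  b : F.B →ₗ[ℝ] G.B
  hom : F.IsHom G a b

/-- The identity. -/
def Mor.id (F : LinMap) : Mor F F := ⟨LinearMap.id, LinearMap.id, fun _ => rfl⟩

/-- The composite: first `u`, then `v`. -/
def Mor.comp {F G H : LinMap} (u : Mor F G) (v : Mor G H) : Mor F H :=
  ⟨v.a ∘ₗ u.a, v.b ∘ₗ u.b, fun x => by
    show H.f (v.a (u.a x)) = v.b (u.b (F.f x))
    rw [v.hom, u.hom]⟩

/-- A regulator with pull-backs and push-forwards. -/
structure GysinData extends RegulatorData where
  /-- the pull-back -/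
  pull {Y X : Scheme.{0}} (f : Y ⟶ X) (p q : ℤ) : Mor (reg X p q) (reg Y p q)
  /-- the push-forward from degree `p` and weight `q` to degree `p'` and weight `q'` (of interest
  only if `p' = p + 2c`, `q' = q + c`, where `c` is the dimension of `X` minus that of `Y`) -/
  push {Y X : Scheme.{0}} (f : Y ⟶ X) (p q p' q' : ℤ) : Mor (reg Y p q) (reg X p' q')

/-- The action of a span on the regulator in degree `p` and weight `q`: pull-back along the first,
then push-forward along the second morphism. -/
def GysinData.act (G : GysinData) {X : Scheme.{0}} {d : ℕ} (s : Span X d) (p q : ℤ) :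
    Mor (G.reg X p q) (G.reg X p q) :=
  (G.pull s.f p q).comp (G.push s.g p q p q)

/-- The formal properties of the regulator. -/
structure IsGysinTheory (G : GysinData) : Prop where
  pull_id : ∀ {X : Scheme.{0}} {d : ℕ}, IsArithmetic X d → ∀ p q, G.pull (𝟙 X) p q = Mor.id _
  push_id : ∀ {X : Scheme.{0}} {d : ℕ}, IsArithmetic X d → ∀ p q, G.push (𝟙 X) p q p q = Mor.id _
  pull_comp : ∀ {Z Y X : Scheme.{0}} {l n d : ℕ} (f : Z ⟶ Y) (g : Y ⟶ X), IsArithmetic Z l →
    IsArithmetic Y n → IsArithmetic X d → ∀ p q,
    G.pull (f ≫ g) p q = (G.pull g p q).comp (G.pull f p q)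
  push_comp : ∀ {Z Y X : Scheme.{0}} {l n d : ℕ} (f : Z ⟶ Y) (g : Y ⟶ X), IsArithmetic Z l →
    IsArithmetic Y n → IsArithmetic X d → ∀ p q p' q' p'' q'' : ℤ,
    p' = p + 2 * (n - l) → q' = q + (n - l) → p'' = p + 2 * (d - l) → q'' = q + (d - l) →
    G.push (f ≫ g) p q p'' q'' = (G.push f p q p' q').comp (G.push g p' q' p'' q'')
  rational : ∀ {X : Scheme.{0}} {d : ℕ}, IsArithmetic X d → ∀ {ι : Type} [Fintype ι]
    (s : ι → Span X d) (c : ι → ℤ), IsRatTrivial (∑ i, c i • (s i).cycle) → ∀ p q,
    (∑ i, c i • (G.act (s i) p q).a = 0) ∧ ∑ i, c i • (G.act (s i) p q).b = 0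
  vanishing : ∀ {V : Scheme.{0}} {e : ℕ}, IsArithmetic V e → ∀ q : ℤ, (e : ℤ) < q →
    ∀ p, p = 2 * q - 1 ∨ p = 2 * q - 2 →
      Subsingleton (G.reg V p q).A ∧ Subsingleton (G.reg V p q).B
  productFormula : ProductFormula G.toRegulatorData

/-- The part of Q1 that concerns the map `r_i`, for the scheme `X` of dimension `d`. -/
def QuestionAt (R : RegulatorData) (X : Scheme.{0}) (d i : ℕ) : Prop :=
  if i = 0 then (R.reg X (2 * d - 1) d).CokernelReal
  else (R.reg X (2 * d - 1 - i) d).Bijective

end Helper69ZC
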