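import Pool.Agent.helper69.ZC.Thm

open AlgebraicGeometry CategoryTheory CategoryTheory.Limits Helper77Reg

namespace Helper69ZC

/-- Transfer from `S` to `X`. -/
theorem transfer_up (hA : Alterations) {G : GysinData} (hG : IsGysinTheory G) {X S : Scheme.{0}}
    {d e : ℕ} (hX : IsArithmetic X d) (hflat : IsFlat X) (hS : IsArithmetic S e) (σ : S ⟶ X)
    (ξ : X) (hξ : IsGenericPoint ξ Set.univ) (h : DecomposesThrough σ d ξ) (i : ℕ)
    (hi : 2 ≤ i → ∀ (V : Scheme.{0}) (n : ℕ), IsArithmetic V n → n < d →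
      (G.reg V (2 * d - 1 - i) d).Bijective)
    (hQ : QuestionAt G.toRegulatorData S e i) : QuestionAt G.toRegulatorData X d i := by
  obtain ⟨K, ι, _, s, n, hK, hs, hr⟩ := exists_spans hA hX hS σ ξ hξ h
  by_cases h0 : i = 0
  · subst h0
    have hQ' : (G.reg S (2 * e - 1) e).CokernelReal := by
      simpa [QuestionAt] using hQ
    show (if (0 : ℕ) = 0 then (G.reg X (2 * d - 1) d).CokernelReal
      else (G.reg X (2 * d - 1 - (0 : ℕ)) d).Bijective)
    rw [if_pos rfl]
    obtain ⟨ha, hb⟩ := act_sum hG hX ξ hξ s n hr (2 * d - 1) d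
    have hret : (G.reg X (2 * d - 1) d).IsRetractOf (G.reg S (2 * e - 1) e) := by
      refine retract_of_factor hK n (fun j => G.act (s j) (2 * d - 1) d) ha hb
        (G.push σ (2 * e - 1) e (2 * d - 1) d) fun j => ?_
      rcases hs j with hj | hj
      · obtain ⟨τ, hτ⟩ := act_first hG hX hS σ (s j) hj (2 * d - 1) d (2 * e - 1) e
          (by ring) (by ring)
        refine ⟨τ, ?_, ?_⟩
        · show (G.act (s j) (2 * d - 1) d).a = _
          rw [hτ]
          rfl
        · show (G.act (s j) (2 * d - 1) d).b = _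
          rw [hτ]
          rfl
      · obtain ⟨V, e', u, v, he', hV, huv⟩ := act_second hG hX (s j) hj (2 * d - 1) d
        obtain ⟨hsA, hsB⟩ := hG.vanishing hV d (by exact_mod_cast he') (2 * d - 1) (Or.inl rfl)
        refine ⟨⟨0, 0, fun x => by simp⟩, ?_, ?_⟩
        · show (G.act (s j) (2 * d - 1) d).a = _
          rw [huv]
          ext x
          show v.a (u.a x) = _
          rw [Subsingleton.elim (u.a x) 0]
          simp
        · show (G.act (s j) (2 * d - 1) d).b = _
          rw [huv]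
          ext x
          show v.b (u.b x) = _
          rw [Subsingleton.elim (u.b x) 0]
          simp
    exact (hret.almostOnto hQ'.almostOnto).cokernelReal (hG.productFormula hX hflat)
  · have hQ' : (G.reg S (2 * e - 1 - i) e).Bijective := by
      have := hQ
      rw [QuestionAt, if_neg h0] at this
      exact this
    show (if i = 0 then (G.reg X (2 * d - 1) d).CokernelReal
      else (G.reg X (2 * d - 1 - i) d).Bijective)
    rw [if_neg h0]
    obtain ⟨ha, hb⟩ := act_sum hG hX ξ hξ s n hr (2 * d - 1 - i) d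
    refine bijective_of_factor hK n (fun j => G.act (s j) (2 * d - 1 - i) d) ha hb fun j => ?_
    rcases hs j with hj | hj
    · obtain ⟨τ, hτ⟩ := act_first hG hX hS σ (s j) hj (2 * d - 1 - i) d (2 * e - 1 - i) e
        (by ring) (by ring)
      exact ⟨_, τ, _, hQ', hτ⟩
    · obtain ⟨V, e', u, v, he', hV, huv⟩ := act_second hG hX (s j) hj (2 * d - 1 - i) d
      refine ⟨_, u, v, ?_, huv⟩
      by_cases h2 : 2 ≤ i
      · exact hi h2 V e' hV he'
      · have h1 : i = 1 := by omega
        subst h1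
        obtain ⟨hsA, hsB⟩ := hG.vanishing hV d (by exact_mod_cast he') (2 * d - 1 - (1 : ℕ))
          (Or.inr (by push_cast; ring))
        exact ⟨fun x y _ => Subsingleton.elim x y, fun y => ⟨0, Subsingleton.elim _ _⟩⟩

theorem dim_closure_generic {T : Type} [TopologicalSpace T] {x : T}
    (h : IsGenericPoint x Set.univ) : topologicalKrullDim (closure {x} : Set T) =
      topologicalKrullDim T := by
  have h1 : (closure {x} : Set T) = Set.univ := h
  rw [h1]
  exact IsHomeomorph.topologicalKrullDim_eq _ (Homeomorph.Set.univ T).isHomeomorph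

/-- Transfer from `X` to `S`. -/
theorem retract_down (hA : Alterations) {G : GysinData} (hG : IsGysinTheory G) {X S : Scheme.{0}}
    {d e : ℕ} (hX : IsArithmetic X d) (hS : IsArithmetic S e) (f : X ⟶ S) (hf : Surjective f)
    (ζ : S) (hζ : IsGenericPoint ζ Set.univ) (p q p' q' : ℤ) (hp : p' = p + 2 * (d - e))
    (hq : q' = q + (d - e)) : (G.reg S p q).IsRetractOf (G.reg X p' q') := by
  obtain ⟨x, hx⟩ := hf.surj ζ
  obtain ⟨T, h, η, hT, hη, h1, h2⟩ := hA f hX.proper hS.proper x e (by
    rw [hx, dim_closure_generic hζ]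
    exact hS.dim)
  set D : ℕ := (h ≫ f).residueDegree η with hD
  have h1' : (h ≫ f) η = ζ := h1.trans hx
  set s : Option Unit → Span S e := fun o => o.elim ⟨T, hT, η, hη, h ≫ f, h ≫ f⟩
    fun _ => diagSpan hS ζ hζ with hs
  set c : Option Unit → ℤ := fun o => o.elim 1 fun _ => -(D : ℤ) with hc
  have hcyc : (⟨T, hT, η, hη, h ≫ f, h ≫ f⟩ : Span S e).cycle =
      Finsupp.single (toSquare (𝟙 S) (𝟙 S) ζ) (D : ℤ) := by
    show Finsupp.single (toSquare (h ≫ f) (h ≫ f) η)
      (((toSquare (h ≫ f) (h ≫ f)).residueDegree η : ℕ) : ℤ) = _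
    have e1 : toSquare (h ≫ f) (h ≫ f) = (h ≫ f) ≫ toSquare (𝟙 S) (𝟙 S) := by
      rw [← comp_toSquare, Category.comp_id]
    rw [e1, residueDegree_comp, residueDegree_eq_one_of_section (toSquare (𝟙 S) (𝟙 S))
      (pullback.fst (toZ S) (toZ S)) (toSquare_fst _ _), one_mul]
    have e2 : ((h ≫ f) ≫ toSquare (𝟙 S) (𝟙 S)) η = toSquare (𝟙 S) (𝟙 S) ζ := by
      rw [← h1']
      rfl
    rw [e2]
  have hrat : IsRatTrivial (∑ i, c i • (s i).cycle) := by
    have : ∑ i, c i • (s i).cycle = 0 := by
      rw [Fintype.sum_option]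
      simp only [hc, hs, Option.elim, Fintype.sum_unique]
      rw [hcyc, diagSpan_cycle, one_smul, Finsupp.smul_single, smul_eq_mul, mul_one,
        ← Finsupp.single_add, add_neg_cancel, Finsupp.single_zero]
    rw [this]
    exact AddSubgroup.zero_mem _
  have hD0 : (D : ℝ) ≠ 0 := by exact_mod_cast h2
  have hact : G.act (⟨T, hT, η, hη, h ≫ f, h ≫ f⟩ : Span S e) p q =
      (G.pull (h ≫ f) p q).comp ((G.push h p q p' q').comp (G.push f p' q' p q)) := by
    show (G.pull (h ≫ f) p q).comp (G.push (h ≫ f) p q p q) = _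
    rw [hG.push_comp h f hT hX hS p q p' q' p q hp hq (by ring) (by ring)]
  obtain ⟨ha, hb⟩ := hG.rational hS s c hrat p q
  rw [Fintype.sum_option] at ha hb
  simp only [hc, hs, Option.elim, Fintype.sum_unique, one_smul] at ha hb
  rw [act_diag hG hS, hact] at ha hb
  have ha' : ∀ y, (G.push f p' q' p q).a ((G.push h p q p' q').a ((G.pull (h ≫ f) p q).a y)) =
      (D : ℝ) • y := by
    intro y
    have e1 := congrArg (fun l => l y) ha
    simp only [LinearMap.add_apply, LinearMap.smul_apply, LinearMap.zero_apply] at e1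
    have e2 := eq_neg_of_add_eq_zero_left e1
    have e3 : (Mor.id (G.reg S p q)).a y = y := rfl
    rw [e3, neg_smul, neg_neg] at e2
    rw [← Int.cast_smul_eq_zsmul ℝ, Int.cast_natCast] at e2
    exact e2
  have hb' : ∀ y, (G.push f p' q' p q).b ((G.push h p q p' q').b ((G.pull (h ≫ f) p q).b y)) =
      (D : ℝ) • y := by
    intro y
    have e1 := congrArg (fun l => l y) hb
    simp only [LinearMap.add_apply, LinearMap.smul_apply, LinearMap.zero_apply] at e1
    have e2 := eq_neg_of_add_eq_zero_left e1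
    have e3 : (Mor.id (G.reg S p q)).b y = y := rfl
    rw [e3, neg_smul, neg_neg] at e2
    rw [← Int.cast_smul_eq_zsmul ℝ, Int.cast_natCast] at e2
    exact e2
  refine ⟨(G.push h p q p' q').a ∘ₗ (G.pull (h ≫ f) p q).a,
    (D : ℝ)⁻¹ • (G.push f p' q' p q).a, (G.push h p q p' q').b ∘ₗ (G.pull (h ≫ f) p q).b,
    (D : ℝ)⁻¹ • (G.push f p' q' p q).b, ?_, ?_, ?_, ?_⟩
  · intro y
    show (G.reg X p' q').f ((G.push h p q p' q').a ((G.pull (h ≫ f) p q).a y)) =
      (G.push h p q p' q').b ((G.pull (h ≫ f) p q).b ((G.reg S p q).f y))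
    rw [(G.push h p q p' q').hom, (G.pull (h ≫ f) p q).hom]
  · intro y
    show (G.reg S p q).f ((D : ℝ)⁻¹ • (G.push f p' q' p q).a y) =
      (D : ℝ)⁻¹ • (G.push f p' q' p q).b ((G.reg X p' q').f y)
    rw [map_smul, (G.push f p' q' p q).hom]
  · intro y
    show (D : ℝ)⁻¹ • (G.push f p' q' p q).a ((G.push h p q p' q').a
      ((G.pull (h ≫ f) p q).a y)) = y
    rw [ha', smul_smul, inv_mul_cancel₀ hD0, one_smul]
  · intro y
    show (D : ℝ)⁻¹ • (G.push f p' q' p q).b ((G.push h p q p' q').b
      ((G.pull (h ≫ f) p q).b y)) = y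
    rw [hb', smul_smul, inv_mul_cancel₀ hD0, one_smul]

theorem transfer_down (hA : Alterations) {G : GysinData} (hG : IsGysinTheory G) {X S : Scheme.{0}}
    {d e : ℕ} (hX : IsArithmetic X d) (hS : IsArithmetic S e) (hflat : IsFlat S) (f : X ⟶ S)
    (hf : Surjective f) (ζ : S) (hζ : IsGenericPoint ζ Set.univ) (i : ℕ)
    (hQ : QuestionAt G.toRegulatorData X d i) : QuestionAt G.toRegulatorData S e i := by
  by_cases h0 : i = 0
  · subst h0
    have hQ' : (G.reg X (2 * d - 1) d).CokernelReal := by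
      simpa [QuestionAt] using hQ
    show (if (0 : ℕ) = 0 then (G.reg S (2 * e - 1) e).CokernelReal
      else (G.reg S (2 * e - 1 - (0 : ℕ)) e).Bijective)
    rw [if_pos rfl]
    have hret := retract_down hA hG hX hS f hf ζ hζ (2 * e - 1) e (2 * d - 1) d (by ring) (by ring)
    exact (hret.almostOnto hQ'.almostOnto).cokernelReal (hG.productFormula hS hflat)
  · have hQ' : (G.reg X (2 * d - 1 - i) d).Bijective := by
      have := hQ
      rw [QuestionAt, if_neg h0] at this
      exact this
    show (if i = 0 then (G.reg S (2 * e - 1) e).CokernelReal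
      else (G.reg S (2 * e - 1 - i) e).Bijective)
    rw [if_neg h0]
    exact (retract_down hA hG hX hS f hf ζ hζ (2 * e - 1 - i) e (2 * d - 1 - i) d (by ring)
      (by ring)).bijective hQ'

end Helper69ZC
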