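import Pool.Agent.helper69.ZC.Defs
import Pool.Agent.helper77.Reg.Main

open AlgebraicGeometry CategoryTheory CategoryTheory.Limits Helper77Reg

namespace Helper69ZC

/-! ### Residue degrees -/

theorem residueDegree_eq_one_of_section {X P : Scheme.{0}} (k : X ⟶ P) (π : P ⟶ X)
    (h : k ≫ π = 𝟙 X) (x : X) : k.residueDegree x = 1 := by
  have h1 : Function.Surjective (k.residueFieldMap x).hom := by
    have : IsOpenImmersion (k ≫ π) := by
      rw [h]
      infer_instance
    have e2 : Function.Surjective ((k ≫ π).residueFieldMap x) :=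
      (ConcreteCategory.bijective_of_isIso ((k ≫ π).residueFieldMap x)).2
    intro y
    obtain ⟨u, hu⟩ := e2 y
    refine ⟨(π.residueFieldMap (k x)).hom u, ?_⟩
    rw [← hu, Scheme.residueFieldMap_comp]
    rfl
  let _ := (k.residueFieldMap x).hom.toAlgebra
  show Module.finrank (P.residueField (k x)) (X.residueField x) = 1
  refine finrank_eq_one (1 : X.residueField x) one_ne_zero fun w => ?_
  obtain ⟨c, hc⟩ := h1 w
  refine ⟨c, ?_⟩
  rw [Algebra.smul_def, mul_one]
  exact hc

theorem residueDegree_comp {X Y Z : Scheme.{0}} (f : X ⟶ Y) (g : Y ⟶ Z) (x : X) :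
    (f ≫ g).residueDegree x = g.residueDegree (f x) * f.residueDegree x := by
  let _ : Algebra (Z.residueField (g (f x))) (Y.residueField (f x)) :=
    (g.residueFieldMap (f x)).hom.toAlgebra
  let _ : Algebra (Y.residueField (f x)) (X.residueField x) := (f.residueFieldMap x).hom.toAlgebra
  let _ : Algebra (Z.residueField (g (f x))) (X.residueField x) :=
    ((f ≫ g).residueFieldMap x).hom.toAlgebra
  have : IsScalarTower (Z.residueField (g (f x))) (Y.residueField (f x)) (X.residueField x) := by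
    refine IsScalarTower.of_algebraMap_eq fun u => ?_
    show ((f ≫ g).residueFieldMap x).hom u =
      (f.residueFieldMap x).hom ((g.residueFieldMap (f x)).hom u)
    rw [Scheme.residueFieldMap_comp]
    rfl
  exact (Module.finrank_mul_finrank (Z.residueField (g (f x))) (Y.residueField (f x))
    (X.residueField x)).symm

/-! ### Spans -/

theorem toSquare_fst {Y X : Scheme.{0}} (f g : Y ⟶ X) :
    toSquare f g ≫ pullback.fst (toZ X) (toZ X) = f := pullback.lift_fst _ _ _

theorem toSquare_snd {Y X : Scheme.{0}} (f g : Y ⟶ X) :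
    toSquare f g ≫ pullback.snd (toZ X) (toZ X) = g := pullback.lift_snd _ _ _

theorem toSquare_eta {Y X : Scheme.{0}} (k : Y ⟶ square X) :
    toSquare (k ≫ pullback.fst (toZ X) (toZ X)) (k ≫ pullback.snd (toZ X) (toZ X)) = k := by
  apply pullback.hom_ext
  · rw [toSquare_fst]
  · rw [toSquare_snd]

theorem comp_toSquare {Z Y X : Scheme.{0}} (k : Z ⟶ Y) (f g : Y ⟶ X) :
    toSquare (k ≫ f) (k ≫ g) = k ≫ toSquare f g := by
  apply pullback.hom_ext
  · rw [toSquare_fst, Category.assoc, toSquare_fst]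
  · rw [toSquare_snd, Category.assoc, toSquare_snd]

/-- The diagonal as a span. -/
def diagSpan {X : Scheme.{0}} {d : ℕ} (hX : IsArithmetic X d) (ξ : X)
    (hξ : IsGenericPoint ξ Set.univ) : Span X d := ⟨X, hX, ξ, hξ, 𝟙 X, 𝟙 X⟩

theorem diagSpan_cycle {X : Scheme.{0}} {d : ℕ} (hX : IsArithmetic X d) (ξ : X)
    (hξ : IsGenericPoint ξ Set.univ) :
    (diagSpan hX ξ hξ).cycle = Finsupp.single (toSquare (𝟙 X) (𝟙 X) ξ) 1 := by
  show Finsupp.single (toSquare (𝟙 X) (𝟙 X) ξ) (((toSquare (𝟙 X) (𝟙 X)).residueDegree ξ : ℕ) : ℤ) = _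
  rw [residueDegree_eq_one_of_section (toSquare (𝟙 X) (𝟙 X)) (pullback.fst (toZ X) (toZ X))
    (toSquare_fst _ _)]
  rfl

theorem toZ_comp {Y X : Scheme.{0}} (f : Y ⟶ X) : f ≫ toZ X = toZ Y :=
  specZIsTerminal.hom_ext _ _

theorem isProper_toZ_comp {Y X : Scheme.{0}} (f : Y ⟶ X) [IsProper f] (h : IsProper (toZ X)) :
    IsProper (toZ Y) := by
  rw [← toZ_comp f]
  infer_instance

theorem exists_span (hA : Alterations) {X T : Scheme.{0}} (hX : IsProper (toZ X))
    (hT : IsProper (toZ T)) (r : T ⟶ X) (π : square X ⟶ X) (hπ : IsProper π) (t : T)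
    (z : square X) (h : r t = π z) (n : ℕ)
    (hn : topologicalKrullDim (closure {z} : Set (square X)) = n) :
    ∃ (s : Span X n) (l : s.Y ⟶ T), toSquare s.f s.g ≫ π = l ≫ r ∧ toSquare s.f s.g s.η = z ∧
      (toSquare s.f s.g).residueDegree s.η ≠ 0 := by
  obtain ⟨w, hw1, hw2⟩ := Scheme.Pullback.exists_preimage_pullback (f := r) (g := π) t z h
  have hW : IsProper (toZ (pullback r π)) := isProper_toZ_comp (pullback.fst r π) hT
  have hP : IsProper (toZ (square X)) := isProper_toZ_comp (pullback.fst (toZ X) (toZ X)) hX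
  have hn' : topologicalKrullDim (closure {pullback.snd r π w} : Set (square X)) = n := by
    rw [hw2]
    exact hn
  obtain ⟨Y, k, η, hY, hη, h1, h2⟩ := hA (pullback.snd r π) hW hP w n hn'
  refine ⟨⟨Y, hY, η, hη, (k ≫ pullback.snd r π) ≫ pullback.fst (toZ X) (toZ X),
    (k ≫ pullback.snd r π) ≫ pullback.snd (toZ X) (toZ X)⟩, k ≫ pullback.fst r π, ?_, ?_, ?_⟩
  · show toSquare ((k ≫ pullback.snd r π) ≫ pullback.fst (toZ X) (toZ X))
      ((k ≫ pullback.snd r π) ≫ pullback.snd (toZ X) (toZ X)) ≫ π = (k ≫ pullback.fst r π) ≫ r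
    rw [toSquare_eta, Category.assoc, Category.assoc, pullback.condition]
  · show toSquare ((k ≫ pullback.snd r π) ≫ pullback.fst (toZ X) (toZ X))
      ((k ≫ pullback.snd r π) ≫ pullback.snd (toZ X) (toZ X)) η = z
    rw [toSquare_eta, h1, hw2]
  · show (toSquare ((k ≫ pullback.snd r π) ≫ pullback.fst (toZ X) (toZ X))
      ((k ≫ pullback.snd r π) ≫ pullback.snd (toZ X) (toZ X))).residueDegree η ≠ 0
    rw [toSquare_eta]
    exact h2

end Helper69ZC
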