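import Pool.Agent.helper69.ZC.Main

open AlgebraicGeometry CategoryTheory CategoryTheory.Limits Helper77Reg

namespace Helper69ZC

/-! ### From components to spans -/

/-- The second morphism factors through `σ`. -/
def FirstKind {S X : Scheme.{0}} (σ : S ⟶ X) {d : ℕ} (s : Span X d) : Prop :=
  ∃ t : s.Y ⟶ S, s.g = t ≫ σ

/-- The first morphism factors through an arithmetic scheme of smaller dimension. -/
def SecondKind {X : Scheme.{0}} {d : ℕ} (s : Span X d) : Prop :=
  ∃ (V : Scheme.{0}) (e : ℕ) (u : s.Y ⟶ V) (v : V ⟶ X), e < d ∧ IsArithmetic V e ∧ s.f = u ≫ v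

theorem exists_nat_dim {T : Type} [TopologicalSpace T] [Nonempty T] {d : ℕ}
    (h : topologicalKrullDim T < d) : ∃ e : ℕ, topologicalKrullDim T = e ∧ e < d := by
  have hne : topologicalKrullDim T ≠ ⊥ := by
    obtain ⟨x⟩ := ‹Nonempty T›
    have : Nonempty (TopologicalSpace.IrreducibleCloseds T) :=
      ⟨⟨closure {x}, isIrreducible_singleton.closure, isClosed_closure⟩⟩
    exact Order.krullDim_ne_bot_iff.2 this
  obtain ⟨m, hm⟩ := WithBot.ne_bot_iff_exists.1 hne
  rw [← hm] at h ⊢
  have h1 : m < (d : ℕ∞) := by exact_mod_cast h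
  obtain ⟨k, hk⟩ := ENat.ne_top_iff_exists.1 (ne_top_of_lt h1)
  refine ⟨k, by rw [← hk]; rfl, ?_⟩
  rw [← hk] at h1
  exact_mod_cast h1

theorem exists_kind (hA : Alterations) {X S : Scheme.{0}} {d e : ℕ} (hX : IsArithmetic X d)
    (hS : IsArithmetic S e) (σ : S ⟶ X) (z : square X)
    (hz : topologicalKrullDim (closure {z} : Set (square X)) = d)
    (h : topologicalKrullDim (closure {pullback.fst (toZ X) (toZ X) z} : Set X) < d ∨
        pullback.snd (toZ X) (toZ X) z ∈ Set.range σ) :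
    ∃ s : Span X d, toSquare s.f s.g s.η = z ∧ (toSquare s.f s.g).residueDegree s.η ≠ 0 ∧
      (FirstKind σ s ∨ SecondKind s) := by
  have := hX.proper
  rcases h with h | ⟨t, ht⟩
  · have : Nonempty (closure {pullback.fst (toZ X) (toZ X) z} : Set X) :=
      ⟨⟨_, subset_closure rfl⟩⟩
    obtain ⟨e', he', hlt⟩ := exists_nat_dim h
    obtain ⟨V, v, η, hV, _, h1, _⟩ := hA (𝟙 X) hX.proper hX.proper
      (pullback.fst (toZ X) (toZ X) z) e' he'
    obtain ⟨s, l, hs1, hs2, hs3⟩ := exists_span hA hX.proper hV.proper v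
      (pullback.fst (toZ X) (toZ X)) inferInstance η z (by simpa using h1) d hz
    refine ⟨s, hs2, hs3, Or.inr ⟨V, e', l, v, hlt, hV, ?_⟩⟩
    rw [← hs1, toSquare_fst]
  · obtain ⟨s, l, hs1, hs2, hs3⟩ := exists_span hA hX.proper hS.proper σ
      (pullback.snd (toZ X) (toZ X)) inferInstance t z ht d hz
    refine ⟨s, hs2, hs3, Or.inl ⟨l, ?_⟩⟩
    rw [← hs1, toSquare_snd]

theorem exists_spans (hA : Alterations) {X S : Scheme.{0}} {d e : ℕ} (hX : IsArithmetic X d)
    (hS : IsArithmetic S e) (σ : S ⟶ X) (ξ : X) (hξ : IsGenericPoint ξ Set.univ)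
    (h : DecomposesThrough σ d ξ) :
    ∃ (K : ℤ) (ι : Type) (_ : Fintype ι) (s : ι → Span X d) (n : ι → ℤ), K ≠ 0 ∧
      (∀ i, FirstKind σ (s i) ∨ SecondKind (s i)) ∧
      IsRatTrivial (∑ o : Option ι, (o.elim K n) • (o.elim (diagSpan hX ξ hξ) s).cycle) := by
  classical
  obtain ⟨N, c, hN, hr, hc⟩ := h
  have h1 : ∀ z : {z // z ∈ c.support}, ∃ s : Span X d, toSquare s.f s.g s.η = z ∧
      (toSquare s.f s.g).residueDegree s.η ≠ 0 ∧ (FirstKind σ s ∨ SecondKind s) := fun z =>
    exists_kind hA hX hS σ z.1 (hc z.1 z.2).1 (hc z.1 z.2).2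
  choose s hs1 hs2 hs3 using h1
  set m : {z // z ∈ c.support} → ℤ := fun z =>
    (((toSquare (s z).f (s z).g).residueDegree (s z).η : ℕ) : ℤ) with hm
  set M : ℤ := ∏ z, m z with hM
  have hM0 : M ≠ 0 := Finset.prod_ne_zero_iff.2 fun z _ => by
    show (((toSquare (s z).f (s z).g).residueDegree (s z).η : ℕ) : ℤ) ≠ 0
    exact_mod_cast hs2 z
  have h2 : ∀ z, ∃ k, M = m z * k := fun z => Finset.dvd_prod_of_mem m (Finset.mem_univ z)
  choose k hk using h2
  refine ⟨M * N, {z // z ∈ c.support}, inferInstance, s, fun z => -(k z * c z.1),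
    mul_ne_zero hM0 hN, hs3, ?_⟩
  have h3 : (∑ o : Option {z // z ∈ c.support}, (o.elim (M * N) fun z => -(k z * c z.1)) •
      (o.elim (diagSpan hX ξ hξ) s).cycle) =
      M • (Finsupp.single (toSquare (𝟙 X) (𝟙 X) ξ) N - c) := by
    rw [Fintype.sum_option]
    simp only [Option.elim]
    rw [diagSpan_cycle, smul_sub, Finsupp.smul_single, Finsupp.smul_single, smul_eq_mul, mul_one,
      smul_eq_mul, sub_eq_add_neg]
    congr 1
    have h4 : ∀ z : {z // z ∈ c.support}, (-(k z * c z.1)) • (s z).cycle =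
        -(M • Finsupp.single z.1 (c z.1)) := by
      intro z
      show (-(k z * c z.1)) • Finsupp.single (toSquare (s z).f (s z).g (s z).η) (m z) = _
      rw [hs1 z, Finsupp.smul_single, Finsupp.smul_single, ← Finsupp.single_neg, hk z]
      congr 1
      simp only [smul_eq_mul]
      ring
    rw [Finset.sum_congr rfl fun z _ => h4 z, Finset.sum_neg_distrib, ← Finset.smul_sum]
    congr 2
    rw [Finset.sum_coe_sort c.support fun z => Finsupp.single z (c z)]
    exact c.sum_single
  rw [h3]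
  exact AddSubgroup.zsmul_mem _ hr _

/-! ### The linear algebra -/

theorem bijective_of_factor {R : LinMap} {ι : Type} [Fintype ι] {K : ℤ} (hK : K ≠ 0) (n : ι → ℤ)
    (m : ι → Mor R R) (ha : K • LinearMap.id + ∑ i, n i • (m i).a = 0)
    (hb : K • LinearMap.id + ∑ i, n i • (m i).b = 0)
    (hf : ∀ i, ∃ (F : LinMap) (u : Mor R F) (v : Mor F R), F.Bijective ∧ m i = u.comp v) :
    R.Bijective := by
  have hK' : (K : ℝ) ≠ 0 := by exact_mod_cast hK
  choose F u v hF huv using hf
  have hA : ∀ x, (K : ℝ) • x = -∑ i, n i • (m i).a x := by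
    intro x
    have := congrArg (fun l => l x) ha
    simp only [LinearMap.add_apply, LinearMap.smul_apply, LinearMap.id_apply,
      LinearMap.sum_apply, LinearMap.zero_apply] at this
    rw [Int.cast_smul_eq_zsmul]
    exact eq_neg_of_add_eq_zero_left this
  have hB : ∀ x, (K : ℝ) • x = -∑ i, n i • (m i).b x := by
    intro x
    have := congrArg (fun l => l x) hb
    simp only [LinearMap.add_apply, LinearMap.smul_apply, LinearMap.id_apply,
      LinearMap.sum_apply, LinearMap.zero_apply] at this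
    rw [Int.cast_smul_eq_zsmul]
    exact eq_neg_of_add_eq_zero_left this
  constructor
  · rw [injective_iff_map_eq_zero]
    intro x hx
    have h1 : ∀ i, (m i).a x = 0 := by
      intro i
      rw [huv i]
      show (v i).a ((u i).a x) = 0
      have : (u i).a x = 0 := by
        apply (hF i).1
        rw [map_zero, (u i).hom x, hx, map_zero]
      rw [this, map_zero]
    have h2 := hA x
    simp only [h1, smul_zero, Finset.sum_const_zero, neg_zero] at h2
    exact (smul_eq_zero.1 h2).resolve_left hK'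
  · intro y
    have h1 : ∀ i, ∃ x, R.f x = (m i).b y := by
      intro i
      obtain ⟨x, hx⟩ := (hF i).2 ((u i).b y)
      refine ⟨(v i).a x, ?_⟩
      rw [(v i).hom x, hx, huv i]
      rfl
    choose x hx using h1
    refine ⟨(K : ℝ)⁻¹ • -∑ i, n i • x i, ?_⟩
    rw [map_smul, map_neg, map_sum]
    simp only [map_zsmul, hx]
    rw [← hB y, smul_smul, inv_mul_cancel₀ hK', one_smul]

theorem retract_of_factor {R F : LinMap} {ι : Type} [Fintype ι] {K : ℤ} (hK : K ≠ 0) (n : ι → ℤ)
    (m : ι → Mor R R) (ha : K • LinearMap.id + ∑ i, n i • (m i).a = 0)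
    (hb : K • LinearMap.id + ∑ i, n i • (m i).b = 0) (w : Mor F R)
    (hf : ∀ i, ∃ u : Mor R F, (m i).a = w.a ∘ₗ u.a ∧ (m i).b = w.b ∘ₗ u.b) :
    R.IsRetractOf F := by
  have hK' : (K : ℝ) ≠ 0 := by exact_mod_cast hK
  choose u hua hub using hf
  refine ⟨(K : ℝ)⁻¹ • -∑ i, n i • (u i).a, w.a, (K : ℝ)⁻¹ • -∑ i, n i • (u i).b, w.b, ?_, w.hom,
    ?_, ?_⟩
  · intro x
    simp only [LinearMap.smul_apply, LinearMap.neg_apply, LinearMap.sum_apply, map_smul, map_neg,
      map_sum, map_zsmul]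
    simp only [(u _).hom x]
  · intro x
    have h1 := congrArg (fun l => l x) ha
    simp only [LinearMap.add_apply, LinearMap.smul_apply, LinearMap.id_apply,
      LinearMap.sum_apply, LinearMap.zero_apply, hua, LinearMap.comp_apply] at h1
    simp only [LinearMap.smul_apply, LinearMap.neg_apply, LinearMap.sum_apply, map_smul, map_neg,
      map_sum, map_zsmul]
    rw [← eq_neg_of_add_eq_zero_left h1, ← Int.cast_smul_eq_zsmul ℝ, smul_smul,
      inv_mul_cancel₀ hK', one_smul]
  · intro x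
    have h1 := congrArg (fun l => l x) hb
    simp only [LinearMap.add_apply, LinearMap.smul_apply, LinearMap.id_apply,
      LinearMap.sum_apply, LinearMap.zero_apply, hub, LinearMap.comp_apply] at h1
    simp only [LinearMap.smul_apply, LinearMap.neg_apply, LinearMap.sum_apply, map_smul, map_neg,
      map_sum, map_zsmul]
    rw [← eq_neg_of_add_eq_zero_left h1, ← Int.cast_smul_eq_zsmul ℝ, smul_smul,
      inv_mul_cancel₀ hK', one_smul]

/-! ### The action of spans -/

theorem act_diag {G : GysinData} (hG : IsGysinTheory G) {X : Scheme.{0}} {d : ℕ}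
    (hX : IsArithmetic X d) (ξ : X) (hξ : IsGenericPoint ξ Set.univ) (p q : ℤ) :
    G.act (diagSpan hX ξ hξ) p q = Mor.id _ := by
  show (G.pull (𝟙 X) p q).comp (G.push (𝟙 X) p q p q) = _
  rw [hG.pull_id hX, hG.push_id hX]
  rfl

theorem act_first {G : GysinData} (hG : IsGysinTheory G) {X S : Scheme.{0}} {d e : ℕ}
    (hX : IsArithmetic X d) (hS : IsArithmetic S e) (σ : S ⟶ X) (s : Span X d)
    (h : FirstKind σ s) (p q p' q' : ℤ) (hp : p' = p + 2 * (e - d)) (hq : q' = q + (e - d)) :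
    ∃ τ : Mor (G.reg X p q) (G.reg S p' q'), G.act s p q = τ.comp (G.push σ p' q' p q) := by
  obtain ⟨t, ht⟩ := h
  refine ⟨(G.pull s.f p q).comp (G.push t p q p' q'), ?_⟩
  show (G.pull s.f p q).comp (G.push s.g p q p q) = _
  rw [ht, hG.push_comp t σ s.arithmetic hS hX p q p' q' p q hp hq (by ring) (by ring)]
  rfl

theorem act_second {G : GysinData} (hG : IsGysinTheory G) {X : Scheme.{0}} {d : ℕ}
    (hX : IsArithmetic X d) (s : Span X d) (h : SecondKind s) (p q : ℤ) :
    ∃ (V : Scheme.{0}) (e : ℕ) (u : Mor (G.reg X p q) (G.reg V p q))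
      (v : Mor (G.reg V p q) (G.reg X p q)), e < d ∧ IsArithmetic V e ∧
      G.act s p q = u.comp v := by
  obtain ⟨V, e, u, v, he, hV, hf⟩ := h
  refine ⟨V, e, G.pull v p q, (G.pull u p q).comp (G.push s.g p q p q), he, hV, ?_⟩
  show (G.pull s.f p q).comp (G.push s.g p q p q) = _
  rw [hf, hG.pull_comp u v s.arithmetic hV hX]
  rfl

theorem act_sum {G : GysinData} (hG : IsGysinTheory G) {X : Scheme.{0}} {d : ℕ}
    (hX : IsArithmetic X d) (ξ : X) (hξ : IsGenericPoint ξ Set.univ) {K : ℤ} {ι : Type}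
    [Fintype ι] (s : ι → Span X d) (n : ι → ℤ)
    (h : IsRatTrivial (∑ o : Option ι, (o.elim K n) • (o.elim (diagSpan hX ξ hξ) s).cycle))
    (p q : ℤ) :
    (K • LinearMap.id + ∑ i, n i • (G.act (s i) p q).a = 0) ∧
      K • LinearMap.id + ∑ i, n i • (G.act (s i) p q).b = 0 := by
  have h1 := hG.rational hX (fun o : Option ι => o.elim (diagSpan hX ξ hξ) s)
    (fun o : Option ι => o.elim K n) h p q
  rw [Fintype.sum_option, Fintype.sum_option] at h1
  simp only [Option.elim] at h1
  rw [act_diag hG hX ξ hξ] at h1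
  exact h1

end Helper69ZC
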